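import Pool.Agent.H61.CA.H

/-!
# Automorphisms that fix a free factor `A` and take the other generators `x_i` to `u_i⁻¹ x_i v_i`, `u_i, v_i` in `A`
-/

set_option autoImplicit false

namespace Pool.Agent.Results.MP_72cbc9_al.FixedFreeFactor

open Pool.Agent.H61.CA (inc tw)

/-- The inclusion of the free factor generated by the first `r` generators. -/
def incl {r m : ℕ} : FreeGroup (Fin r) →* FreeGroup (Fin r ⊕ Fin m) := FreeGroup.map Sum.inl

/-- The endomorphism of the free group of rank `r + m` that fixes the first `r` generators and takes the generator `x_i` with number `i`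
among the last `m` to `u_i⁻¹ x_i v_i`, where `(u_i, v_i) = k i`. -/
def twistHom {r m : ℕ} (k : Fin m → FreeGroup (Fin r) × FreeGroup (Fin r)) :
    FreeGroup (Fin r ⊕ Fin m) →* FreeGroup (Fin r ⊕ Fin m) :=
  FreeGroup.lift (Sum.elim (fun a => FreeGroup.of (Sum.inl a))
    (fun i => (incl (k i).1)⁻¹ * FreeGroup.of (Sum.inr i) * incl (k i).2))

theorem incl_eq {r m : ℕ} : (incl : FreeGroup (Fin r) →* FreeGroup (Fin r ⊕ Fin m)) = inc := by
  apply FreeGroup.ext_hom
  intro a
  simp [incl, inc]

theorem twistHom_eq {r m : ℕ} (k : Fin m → FreeGroup (Fin r) × FreeGroup (Fin r)) : twistHom k = tw k := by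
  apply FreeGroup.ext_hom
  rintro (a | i)
  · simp [twistHom, tw]
  · simp [twistHom, tw, incl_eq, Pool.Agent.H61.CA.x]

theorem twistHom_inv {r m : ℕ} (k : Fin m → FreeGroup (Fin r) × FreeGroup (Fin r)) (g : FreeGroup (Fin r ⊕ Fin m)) :
    twistHom (fun i => ((k i).1⁻¹, (k i).2⁻¹)) (twistHom k g) = g := by
  rw [twistHom_eq, twistHom_eq]
  have h : (tw (fun i => ((k i).1⁻¹, (k i).2⁻¹))).comp (tw k) = MonoidHom.id (FreeGroup (Fin r ⊕ Fin m)) := by
    apply Pool.Agent.H61.CA.hom_ext'
    · intro a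
      simp
    · intro i
      simp only [MonoidHom.comp_apply, Pool.Agent.H61.CA.tw_x, map_mul, map_inv, Pool.Agent.H61.CA.tw_inc, MonoidHom.id_apply]
      group
  exact DFunLike.congr_fun h g

/-- The same map as an automorphism. -/
def twist {r m : ℕ} (k : Fin m → FreeGroup (Fin r) × FreeGroup (Fin r)) : MulAut (FreeGroup (Fin r ⊕ Fin m)) where
  toFun := twistHom k
  invFun := twistHom (fun i => ((k i).1⁻¹, (k i).2⁻¹))
  left_inv g := twistHom_inv k g
  right_inv g := by
    have h := twistHom_inv (fun i => ((k i).1⁻¹, (k i).2⁻¹)) g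
    simp only [inv_inv] at h
    exact h
  map_mul' := map_mul _

/-- `c` and `d` in the free factor are joined: the equivalence relation generated by conjugacy in the free factor and by the pairs `k i`. -/
def Joined {r m : ℕ} (k : Fin m → FreeGroup (Fin r) × FreeGroup (Fin r)) (c d : FreeGroup (Fin r)) : Prop :=
  Relation.EqvGen (fun p q => IsConj p q ∨ ∃ i, (k i).1 = p ∧ (k i).2 = q) c d

/-- The number of pairs in the class of `c`. -/
noncomputable def edges {r m : ℕ} (k : Fin m → FreeGroup (Fin r) × FreeGroup (Fin r)) (c : FreeGroup (Fin r)) : ℕ :=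
  Nat.card {i : Fin m // Joined k c (k i).1}

theorem result (r m : ℕ) (k k' : Fin m → FreeGroup (Fin r) × FreeGroup (Fin r))
    (hk : ∀ i, (k i).1 ≠ 1 ∧ (k i).2 ≠ 1) (hk' : ∀ i, (k' i).1 ≠ 1 ∧ (k' i).2 ≠ 1) :
    IsConj (twist k) (twist k') ↔
      ∃ α : MulAut (FreeGroup (Fin r)), (∀ c d, Joined k c d ↔ Joined k' (α c) (α d)) ∧ ∀ c, edges k c = edges k' (α c) := by
  have h := Pool.Agent.H61.CA.classification k k' hk hk'
  rw [← twistHom_eq, ← twistHom_eq] at h
  constructor
  · intro hc
    obtain ⟨c, hc⟩ := isConj_iff.1 hc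
    apply h.1
    refine ⟨c, fun g => ?_⟩
    have h1 : c * twist k = twist k' * c := by
      rw [← hc]
      simp
    exact DFunLike.congr_fun h1 g
  · intro hc
    obtain ⟨θ, hθ⟩ := h.2 hc
    apply isConj_iff.2
    refine ⟨(θ : MulAut (FreeGroup (Fin r ⊕ Fin m))), ?_⟩
    have h1 : (θ : MulAut (FreeGroup (Fin r ⊕ Fin m))) * twist k = twist k' * θ := by
      ext1 g
      exact hθ g
    rw [h1]
    simp

end Pool.Agent.Results.MP_72cbc9_al.FixedFreeFactor
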