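import Pool.Agent.H61.CT.J8

/-!
# Multiple twists `t -> t`, `x_i -> t^(-a_i) x_i t^(b_i)` up to conjugacy in the automorphism group of a free group
-/

set_option autoImplicit false

namespace Pool.Agent.Results.MP_72cbc9_al.MultiTwists

open Pool.Agent.H61.CT

/-- The endomorphism of the free group of rank `m + 1` that fixes the first generator `t` and takes the generator `x_i` with number `i + 1`
to `t^(-(k i).1) x_i t^((k i).2)`. -/
def twistHom {m : ℕ} (k : Fin m → ℤ × ℤ) : FreeGroup (Fin (m + 1)) →* FreeGroup (Fin (m + 1)) :=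
  FreeGroup.lift (Fin.cases (FreeGroup.of 0)
    (fun i => FreeGroup.of 0 ^ (-(k i).1) * FreeGroup.of i.succ * FreeGroup.of 0 ^ (k i).2))

theorem twistHom_eq {m : ℕ} (k : Fin m → ℤ × ℤ) : twistHom k = twF k := rfl

/-- The same map as an automorphism. -/
def twist {m : ℕ} (k : Fin m → ℤ × ℤ) : MulAut (FreeGroup (Fin (m + 1))) where
  toFun := twistHom k
  invFun := twistHom (-k)
  left_inv g := (twF_twF m k g).1
  right_inv g := (twF_twF m k g).2
  map_mul' := map_mul _

/-- `a` and `b` are joined by a path of edges `(k i).1 -- (k i).2` in the graph with vertex set the integers. -/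
def Joined {m : ℕ} (k : Fin m → ℤ × ℤ) (a b : ℤ) : Prop := Relation.EqvGen (fun p q => ∃ i, (k i).1 = p ∧ (k i).2 = q) a b

/-- The number of edges in the component of `a`. -/
noncomputable def edges {m : ℕ} (k : Fin m → ℤ × ℤ) (a : ℤ) : ℕ := Nat.card {i : Fin m // Joined k a (k i).1}

theorem result (m : ℕ) (k k' : Fin m → ℤ × ℤ) : IsConj (twist k) (twist k') ↔
    ∃ a ε : ℤ, (ε = 1 ∨ ε = -1) ∧ Joined k' 0 a ∧ (∀ p q : ℤ, Joined k p q ↔ Joined k' (a + ε * p) (a + ε * q)) ∧
      ∀ p : ℤ, edges k p = edges k' (a + ε * p) := by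
  have h := conj_iff m k k'
  constructor
  · intro hc
    obtain ⟨c, hc⟩ := isConj_iff.1 hc
    apply h.1
    refine ⟨c, fun g => ?_⟩
    have h1 : c * twist k = twist k' * c := by
      rw [← hc]
      simp
    exact DFunLike.congr_fun h1 g
  · intro hc
    obtain ⟨θ, hθ⟩ := h.2 hc
    apply isConj_iff.2
    refine ⟨(θ : MulAut (FreeGroup (Fin (m + 1)))), ?_⟩
    have h1 : (θ : MulAut (FreeGroup (Fin (m + 1)))) * twist k = twist k' * θ := by
      ext1 g
      exact hθ g
    rw [h1]
    simp

end Pool.Agent.Results.MP_72cbc9_al.MultiTwists
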