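import Pool.Agent.H61.CT.J9

/-!
# The conjugacy problem in the automorphism group of a free group for multiple twists along an element of some basis
-/

set_option autoImplicit false

namespace Pool.Agent.Results.MP_72cbc9_al.TwistAlgorithm

open Pool.Agent.H61.CT

/-- The endomorphism of the free group of rank `n` that takes the `j`-th generator to the `j`-th word of the list `a`. -/
def endo (n : ℕ) (a : List (List (Fin n × Bool))) : FreeGroup (Fin n) →* FreeGroup (Fin n) :=
  FreeGroup.lift (fun j : Fin n => FreeGroup.mk (a.getD j.val []))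

/-- There is a basis `y_0, y_1, ..., y_m` of the free group of rank `m + 1` such that `φ` fixes `y_0` and takes each `y_i` (`i > 0`) to
`y_0 ^ (-a i) * y_i * y_0 ^ (b i)`. (A basis is the image `e (of 0), ..., e (of m)` of the standard one under an automorphism `e`.) -/
def IsMultiTwist (m : ℕ) (φ : FreeGroup (Fin (m + 1)) →* FreeGroup (Fin (m + 1))) : Prop :=
  ∃ (e : FreeGroup (Fin (m + 1)) ≃* FreeGroup (Fin (m + 1))) (a b : Fin m → ℤ), φ (e (FreeGroup.of 0)) = e (FreeGroup.of 0) ∧
    ∀ i : Fin m, φ (e (FreeGroup.of i.succ)) = e (FreeGroup.of 0) ^ (-a i) * e (FreeGroup.of i.succ) * e (FreeGroup.of 0) ^ (b i)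

theorem isMT (m : ℕ) (φ : FreeGroup (Fin (m + 1)) →* FreeGroup (Fin (m + 1))) (h : IsMultiTwist m φ) : IsMT m φ := by
  obtain ⟨e, a, b, h0, hi⟩ := h
  refine ⟨e, fun i => (a i, b i), ?_⟩
  have key : φ.comp e.toMonoidHom = e.toMonoidHom.comp (twF (fun i => (a i, b i))) := by
    apply FreeGroup.ext_hom
    intro j
    refine Fin.cases ?_ ?_ j
    · show φ (e (FreeGroup.of 0)) = e (twF (fun i => (a i, b i)) (FreeGroup.of 0))
      rw [twF, FreeGroup.lift_apply_of]
      exact h0
    · intro i
      show φ (e (FreeGroup.of i.succ)) = e (twF (fun i => (a i, b i)) (FreeGroup.of i.succ))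
      rw [twF, FreeGroup.lift_apply_of]
      show _ = e (FreeGroup.of 0 ^ (-a i) * FreeGroup.of i.succ * FreeGroup.of 0 ^ (b i))
      rw [map_mul, map_mul, map_zpow, map_zpow]
      exact hi i
  intro g
  exact DFunLike.congr_fun key g

theorem result (m : ℕ) : ∃ D : List (List (Fin (m + 1) × Bool)) × List (List (Fin (m + 1) × Bool)) →. Bool, Partrec D ∧
    ∀ a b : List (List (Fin (m + 1) × Bool)), IsMultiTwist m (endo (m + 1) a) → IsMultiTwist m (endo (m + 1) b) →
      ∃ d ∈ D (a, b), (d = true ↔ ∃ ψ : FreeGroup (Fin (m + 1)) ≃* FreeGroup (Fin (m + 1)),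
        ∀ g, ψ (endo (m + 1) a g) = endo (m + 1) b (ψ g)) := by
  obtain ⟨D, hD, h⟩ := algorithm m
  exact ⟨D, hD, fun a b ha hb => h a b (isMT m _ ha) (isMT m _ hb)⟩

end Pool.Agent.Results.MP_72cbc9_al.TwistAlgorithm
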